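import Pool.Agent.U352.AF.Fin
import Pool.Agent.N520.SV.Fin3

/-!
# Simplicial volume of closed affine manifolds with amenable holonomy above a tower of translations

Let `M = Γ \ Ω` be a closed affine manifold with parallel volume, where `Ω` is a domain of the affine
space `E`. Let `0 = V 0 ⊆ V 1 ⊆ … ⊆ V m` be invariant subspaces such that `V (i + 1) / V i` is spanned by
translations: vectors `v` for which some element of a subgroup `H` of finite index acts on `E / V i`
as the translation by `v`. (For example `m = 0`, or `m = 1` and `V 1` spanned by the translations in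
`Γ`.) Suppose that the linear holonomy of `H` on `E / V m` is solvable, or uniformly quasi-conformal
on the quotients of a flag (every closed amenable group of linear maps has a subgroup of finite
index with this property, by classical structure theory). Then all real homology classes of `M` of
positive degree have `ℓ¹`-seminorm zero; in particular the simplicial volume of `M` is zero. Moreover
`Γ` is virtually solvable.

There is no condition on the linear holonomy on the spaces `V (i + 1) / V i`.
-/

set_option autoImplicit false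

open Set Filter Topology

namespace Pool.Agent.Results.MP_f22a19_gt.AmenableHolonomy

/-- the standard simplex of dimension `k` -/
abbrev Simplex (k : ℕ) : Type := stdSimplex ℝ (Fin (k + 1))

/-- real singular chains of degree `k` of the space `M` -/
abbrev Chain (k : ℕ) (M : Type) [TopologicalSpace M] : Type := C(Simplex k, M) →₀ ℝ

/-- the inclusion of the face opposite to the vertex `i` -/
noncomputable def face {k : ℕ} (i : Fin (k + 2)) : C(Simplex k, Simplex (k + 1)) :=
  ⟨stdSimplex.map i.succAbove, stdSimplex.continuous_map _⟩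

/-- the boundary of singular chains -/
noncomputable def bdry {M : Type} [TopologicalSpace M] (k : ℕ) : Chain (k + 1) M →ₗ[ℝ] Chain k M :=
  Finsupp.linearCombination ℝ fun σ =>
    ∑ i : Fin (k + 2), ((-1 : ℝ) ^ (i : ℕ)) • Finsupp.single (σ.comp (face i)) 1

/-- the `ℓ¹`-norm of a singular chain: the sum of the absolute values of its coefficients -/
noncomputable def norm1 {M : Type} [TopologicalSpace M] {k : ℕ} (c : Chain k M) : ℝ :=
  ∑ σ ∈ c.support, |c σ|

/-- The `ℓ¹`-seminorm of the homology class of a cycle `z`: the infimum of the norms of the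
homologous cycles. For a fundamental cycle of a closed oriented manifold this is the simplicial
volume. -/
noncomputable def seminorm1 {k : ℕ} {M : Type} [TopologicalSpace M] (z : Chain (k + 1) M) : ℝ :=
  ⨅ c : Chain (k + 2) M, norm1 (z + bdry (k + 1) c)

/-- A closed affine manifold `Γ \ X` modelled on the vector space `E`: the group `Γ` acts on the
space `X` freely, properly discontinuously and with compact quotient, and the developing map `dev`
is a local homeomorphism to `E` that is equivariant with respect to the affine holonomy `hol`. -/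
structure ClosedAffine (X Γ E : Type) [TopologicalSpace X] [Group Γ] [MulAction Γ X]
    [NormedAddCommGroup E] [NormedSpace ℝ E] (dev : X → E) (hol : Γ →* (E ≃ᵃ[ℝ] E)) : Prop where
  /-- the developing map is a local homeomorphism -/
  loc : IsLocalHomeomorph dev
  /-- the group acts by homeomorphisms -/
  cont : ∀ γ : Γ, Continuous fun x : X => γ • x
  /-- the developing map is equivariant -/
  equi : ∀ (γ : Γ) (x : X), dev (γ • x) = hol γ (dev x)
  /-- the action is free -/
  free : ∀ (γ : Γ) (x : X), γ • x = x → γ = 1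
  /-- the action is properly discontinuous -/
  pd : ∀ K : Set X, IsCompact K → {γ : Γ | ∃ x ∈ K, γ • x ∈ K}.Finite
  /-- the quotient is compact -/
  cc : ∃ K : Set X, IsCompact K ∧ ∀ x : X, ∃ γ : Γ, ∃ k ∈ K, γ • k = x

section
variable {Γ E : Type} [Group Γ] [NormedAddCommGroup E] [NormedSpace ℝ E]

/-- the affine holonomy preserves the volume -/
def ParallelVolume (hol : Γ →* (E ≃ᵃ[ℝ] E)) : Prop :=
  ∀ γ : Γ, |LinearMap.det ((hol γ).linear : E →ₗ[ℝ] E)| = 1

/-- the linear holonomy of `H` preserves `V` -/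
def Invariant (hol : Γ →* (E ≃ᵃ[ℝ] E)) (H : Subgroup Γ) (V : Submodule ℝ E) : Prop :=
  ∀ γ ∈ H, ∀ v ∈ V, (hol γ).linear v ∈ V

/-- `γ` acts on `E / V` as a translation by a vector of `W / V` -/
def TranslatesModulo (hol : Γ →* (E ≃ᵃ[ℝ] E)) (V W : Submodule ℝ E) (γ : Γ) : Prop :=
  (∀ v, (hol γ).linear v - v ∈ V) ∧ hol γ 0 ∈ W

/-- A tower of invariant subspaces `0 = V 0 ⊆ V 1 ⊆ … ⊆ V m` such that `V (i + 1) / V i` is spanned
by vectors `v` for which some element of `H` acts on `E / V i` as the translation by `v`. -/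
def Tower (hol : Γ →* (E ≃ᵃ[ℝ] E)) (H : Subgroup Γ) (V : ℕ → Submodule ℝ E) (m : ℕ) : Prop :=
  V 0 = ⊥ ∧ (∀ i < m, V i ≤ V (i + 1)) ∧ (∀ i ≤ m, Invariant hol H (V i)) ∧
    ∀ i < m, V (i + 1) ≤ V i ⊔ Submodule.span ℝ
      {v | ∃ γ ∈ H, TranslatesModulo hol (V i) (V (i + 1)) γ ∧ hol γ 0 = v}

/-- The linear holonomy of `H` is solvable modulo `V`: some derived subgroup of `H` acts trivially
on the vector space `E / V`. -/
def SolvableAbove (hol : Γ →* (E ≃ᵃ[ℝ] E)) (H : Subgroup Γ) (V : Submodule ℝ E) : Prop :=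
  ∃ j : ℕ, ∀ γ ∈ derivedSeries H j, ∀ v, (hol (γ : Γ)).linear v - v ∈ V

/-- The linear holonomy of `H` preserves a flag `V = S 0 ⊆ S 1 ⊆ … ⊆ S l = E`, and acts on the
quotients `S (i + 1) / S i` by uniformly quasi-conformal maps: there is one constant `C`, and for
all `γ` in `H` and `i < l` a factor `c > 0`, such that the linear part of `hol γ` multiplies the
quotient norm of `S (i + 1) / S i` at most by `C * c`, and its inverse at most by `C / c`. -/
def ConformalAbove (hol : Γ →* (E ≃ᵃ[ℝ] E)) (H : Subgroup Γ) (V : Submodule ℝ E) : Prop :=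
  ∃ (S : ℕ → Submodule ℝ E) (l : ℕ), S 0 = V ∧ S l = ⊤ ∧ (∀ i < l, S i ≤ S (i + 1)) ∧
    (∀ i ≤ l, Invariant hol H (S i)) ∧
    ∃ C : ℝ, ∀ i < l, ∀ γ ∈ H, ∃ c : ℝ, 0 < c ∧ ∀ v ∈ S (i + 1),
      (∃ w ∈ S i, ‖(hol γ).linear v - w‖ ≤ C * c * ‖v‖) ∧
      ∃ w ∈ S i, ‖(hol γ⁻¹).linear v - w‖ ≤ C * c⁻¹ * ‖v‖

end

/-- Let `M = X / Γ` be a closed affine manifold with parallel volume and injective developing map,
`H` a subgroup of finite index of `Γ` and `0 = V 0 ⊆ V 1 ⊆ … ⊆ V m` a tower of translations, and
suppose that the linear holonomy of `H` on `E / V m` is solvable or uniformly quasi-conformal on the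
quotients of a flag. Then `Γ` is virtually solvable, and the `ℓ¹`-seminorm of all real homology
classes of `M` of positive degree is zero. -/
theorem result (X Γ E : Type) [NormedAddCommGroup E] [NormedSpace ℝ E]
    [FiniteDimensional ℝ E] [TopologicalSpace X] [Nonempty X] [Group Γ] [MulAction Γ X]
    (dev : X → E) (hol : Γ →* (E ≃ᵃ[ℝ] E)) (D : ClosedAffine X Γ E dev hol)
    (hvol : ParallelVolume hol) (hinj : Function.Injective dev) (H : Subgroup Γ)
    (hH : H.FiniteIndex) (V : ℕ → Submodule ℝ E) (m : ℕ) (hV : Tower hol H V m)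
    (hE : SolvableAbove hol H (V m) ∨ ConformalAbove hol H (V m)) :
    (∃ A : Subgroup Γ, A.FiniteIndex ∧ Group.IsSolvable A) ∧
      ∀ (k : ℕ) (z : Chain (k + 1) (MulAction.orbitRel.Quotient Γ X)), bdry k z = 0 →
        seminorm1 z = 0 := by
  have D0 := Pool.Agent.U352.AF.toDom D.loc D.equi D.pd D.cc hinj
  have DH := D0.restrict H hH
  have hne : (range dev).Nonempty := range_nonempty dev
  obtain ⟨t1, t2, t3, t4⟩ := hV
  have T : Pool.Agent.U352.AF.Tower (hol.comp H.subtype) V m := by
    refine ⟨t1, t2, fun i hi γ => t3 i hi γ γ.2, fun i hi => (t4 i hi).trans ?_⟩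
    refine sup_le_sup_left (Submodule.span_mono ?_) _
    rintro v ⟨γ, hγ, h1, h2⟩
    exact ⟨⟨γ, hγ⟩, h1, h2⟩
  have h' : Pool.Agent.U352.AF.CA (hol.comp H.subtype) (V m) ∨
      Pool.Agent.U352.AF.SA (hol.comp H.subtype) (V m) := by
    rcases hE with h | ⟨S, l, h0, hl, h1, h2, C, hC⟩
    · exact Or.inr h
    · exact Or.inl ⟨S, l, h0, hl, h1, fun i hi γ => h2 i hi γ γ.2, C,
        fun i hi γ => hC i hi γ γ.2⟩
  obtain ⟨hΩ, hvs⟩ := Pool.Agent.U352.AF.final DH hne (fun γ => hvol γ) T h'
  have hT2 : T2Space X := (D.loc.isOpenEmbedding_of_injective hinj).toIsEmbedding.t2Space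
  exact Pool.Agent.N520.SV.solv_zero X Γ E dev hol
    ⟨D.loc, D.cont, D.equi, hvol, D.pd, D.cc⟩ D.free
    (Pool.Agent.U352.AF.homeo_of_full D.loc hinj hΩ) (Pool.Agent.U352.AF.vs_restrict H hH hvs)

end Pool.Agent.Results.MP_f22a19_gt.AmenableHolonomy
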