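import Mathlib

/-!
# Simplicial volume of closed affine manifolds: a sublinear bound suffices

Let `size ≥ 0` be a function of closed affine manifolds which grows at most linearly in finite
coverings, for example the least number of simplices of a (generalised) triangulation, so that
`‖M‖ ≤ size M`. The holonomy group of a closed affine manifold of positive dimension is an infinite
finitely generated linear group, so by Malcev the manifold has finite coverings of arbitrarily
large degree. Hence one closed affine manifold `M₀` with `‖M₀‖ > 0` gives, in each multiple `n` of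
its dimension, closed affine `n`-manifolds with `‖M‖ ≥ c size M + C`, for a fixed `c > 0` and
all `C`: the coverings of a power of `M₀`.
-/

set_option autoImplicit false

namespace Pool.Agent.Results.MP_f22a19_gt.SublinearVolumeSuffices

/-- Closed affine manifolds with dimension, simplicial volume and a real function `size`;
`Covers N M d`: `N` is a `d`-sheeted covering of `M` with the induced affine structure. -/
structure AffineManifolds where
  Man : Type
  dim : Man → ℕ
  vol : Man → ℝ
  size : Man → ℝ
  Covers : Man → Man → ℕ → Prop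

/-- The facts used: simplicial volume and `size` are not negative; products of affine manifolds are
affine, with `‖M‖ ‖N‖ ≤ ‖M × N‖` (Gromov); the simplicial volume is multiplicative and `size`
at most linear in coverings; a closed affine manifold of positive dimension has finite coverings of
arbitrarily large degree (Malcev, for the holonomy group). -/
structure Facts (A : AffineManifolds) : Prop where
  vol_nonneg : ∀ M, 0 ≤ A.vol M
  size_nonneg : ∀ M, 0 ≤ A.size M
  product : ∀ M N, ∃ P, A.dim P = A.dim M + A.dim N ∧ A.vol M * A.vol N ≤ A.vol P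
  dim_covers : ∀ N M d, A.Covers N M d → A.dim N = A.dim M
  vol_covers : ∀ N M d, A.Covers N M d → A.vol N = d * A.vol M
  size_covers : ∀ N M d, A.Covers N M d → A.size N ≤ d * A.size M
  coverings : ∀ M, 0 < A.dim M → ∀ k : ℕ, ∃ N d, k ≤ d ∧ A.Covers N M d

/-- Powers. -/
theorem powers {A : AffineManifolds} (h : Facts A) {M : A.Man} (hM : 0 < A.vol M) (k : ℕ) :
    ∃ P, A.dim P = (k + 1) * A.dim M ∧ 0 < A.vol P := by
  induction k with
  | zero => exact ⟨M, by simp, hM⟩
  | succ k ih =>
    obtain ⟨P, h1, h2⟩ := ih
    obtain ⟨Q, h3, h4⟩ := h.product P M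
    exact ⟨Q, by rw [h3, h1]; ring, lt_of_lt_of_le (mul_pos h2 hM) h4⟩

/-- Let `D` be a set of positive numbers such that every positive number divides a member of `D`.
All closed affine manifolds of positive dimension have simplicial volume zero if and only if for
every `n ∈ D` and `ε > 0` there is `C` with `‖M‖ ≤ ε size(M) + C` for all closed affine
`n`-manifolds `M`. -/
theorem result (A : AffineManifolds) (h : Facts A) (D : Set ℕ)
    (hD0 : ∀ n ∈ D, 0 < n) (hD : ∀ m : ℕ, 0 < m → ∃ n ∈ D, m ∣ n) :
    (∀ M, 0 < A.dim M → A.vol M = 0) ↔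
    (∀ n ∈ D, ∀ ε : ℝ, 0 < ε → ∃ C : ℝ, ∀ M, A.dim M = n → A.vol M ≤ ε * A.size M + C) := by
  constructor
  · intro hc n hn ε hε
    refine ⟨0, fun M hM => ?_⟩
    rw [hc M (by rw [hM]; exact hD0 n hn)]
    have := h.size_nonneg M
    positivity
  · intro hb M hM
    by_contra hne
    have hpos : 0 < A.vol M := lt_of_le_of_ne (h.vol_nonneg M) (Ne.symm hne)
    obtain ⟨n, hn, k, hk⟩ := hD (A.dim M) hM
    have hn0 := hD0 n hn
    have hk0 : 0 < k := Nat.pos_of_ne_zero fun h0 => by
      rw [h0, mul_zero] at hk; omega
    obtain ⟨P, hP1, hP2⟩ := powers h hpos (k - 1)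
    rw [Nat.sub_add_cancel hk0] at hP1
    have hPd : A.dim P = n := by rw [hP1, hk]; ring
    have hsP := h.size_nonneg P
    obtain ⟨C, hC⟩ := hb n hn (A.vol P / (2 * (A.size P + 1))) (by positivity)
    obtain ⟨k', hk'⟩ := exists_nat_gt (2 * C / A.vol P)
    rw [div_lt_iff₀ hP2] at hk'
    obtain ⟨N, d, hd, hN⟩ := h.coverings P (by rw [hPd]; exact hn0) (k' + 1)
    have h3 := hC N (by rw [h.dim_covers N P d hN, hPd])
    rw [h.vol_covers N P d hN] at h3
    have h4 := h.size_covers N P d hN
    have hd0 : (0 : ℝ) ≤ d := Nat.cast_nonneg d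
    have hdk : (k' : ℝ) + 1 ≤ d := by exact_mod_cast hd
    have h6 : A.vol P / (2 * (A.size P + 1)) * A.size N ≤ d * A.vol P / 2 := by
      calc A.vol P / (2 * (A.size P + 1)) * A.size N
          ≤ A.vol P / (2 * (A.size P + 1)) * (d * (A.size P + 1)) := by
            refine mul_le_mul_of_nonneg_left (h4.trans ?_) (by positivity)
            exact mul_le_mul_of_nonneg_left (by linarith) hd0
        _ = d * A.vol P / 2 := by
            field_simp
    have h7 : ((k' : ℝ) + 1) * A.vol P ≤ d * A.vol P := mul_le_mul_of_nonneg_right hdk hP2.le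
    nlinarith

end Pool.Agent.Results.MP_f22a19_gt.SublinearVolumeSuffices
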